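import Pool.Agent.H.MP_728180_al.B

namespace Pool.Agent.Results.MP_728180_al.NoStrict

open Pool.Agent.H.MP_728180_al

theorem result (k A : Type) [Field k] [CommRing A] [Algebra k A] [FiniteDimensional k A]
    [IsLocalRing A] (l : A) (hl : l ∈ IsLocalRing.maximalIdeal A) (P : Multiset ℕ)
    (hP : IsJT k l P) :
    ¬ (Dom P (contig (hilb k (IsLocalRing.maximalIdeal A))) ∧
      P ≠ contig (hilb k (IsLocalRing.maximalIdeal A))) := by
  rintro ⟨h1, h2⟩
  haveI : IsArtinianRing A := IsArtinianRing.of_finite k A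
  refine h2 (main _ ?_ l hl P hP h1)
  rw [← IsLocalRing.jacobson_eq_maximalIdeal ⊥ bot_ne_top]
  exact IsArtinianRing.isNilpotent_jacobson_bot

end Pool.Agent.Results.MP_728180_al.NoStrict
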